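import Mathlib

/-!
# A dense symmetric subset of a finite commutative group generates in boundedly many steps
-/

set_option autoImplicit false

namespace Pool.Agent.N71.DM

theorem diam {G : Type*} [CommGroup G] [Finite G] (S : Set G) (h1 : (1 : G) ∈ S)
    (hinv : ∀ s ∈ S, s⁻¹ ∈ S) (k : ℝ) (hk : (Nat.card G : ℝ) ≤ k * S.ncard) (x : G)
    (hx : x ∈ Subgroup.closure S) :
    ∃ l : List G, (∀ s ∈ l, s ∈ S) ∧ (l.length : ℝ) ≤ 3 * k ∧ l.prod = x := by
  classical
  have hex0 : ∃ l : List G, (∀ s ∈ l, s ∈ S) ∧ l.prod = x := by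
    induction hx using Subgroup.closure_induction with
    | mem y hy => exact ⟨[y], by simpa using hy, by simp⟩
    | one => exact ⟨[], by simp, by simp⟩
    | mul y z _ _ hy hz =>
      obtain ⟨l₁, h₁, p₁⟩ := hy
      obtain ⟨l₂, h₂, p₂⟩ := hz
      refine ⟨l₁ ++ l₂, fun s hs => ?_, by rw [List.prod_append, p₁, p₂]⟩
      rcases List.mem_append.1 hs with h | h
      · exact h₁ s h
      · exact h₂ s h
    | inv y _ hy =>
      obtain ⟨l, h, p⟩ := hy
      refine ⟨l.map (fun s => s⁻¹), fun s hs => ?_, ?_⟩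
      · obtain ⟨t, ht, rfl⟩ := List.mem_map.1 hs
        exact hinv t (h t ht)
      · rw [← p, List.prod_inv]
  have hex : ∃ n : ℕ, ∃ l : List G, (∀ s ∈ l, s ∈ S) ∧ l.length = n ∧ l.prod = x := by
    obtain ⟨l, hl, hp⟩ := hex0
    exact ⟨l.length, l, hl, rfl, hp⟩
  obtain ⟨l, hl, hlen, hprod⟩ := Nat.find_spec hex
  set n := Nat.find hex with hn
  have hmin : ∀ i ≤ n, ∀ l' : List G, (∀ s ∈ l', s ∈ S) → l'.prod = (l.take i).prod →
      i ≤ l'.length := by
    intro i hi l' hl' hp
    by_contra hcon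
    have hlt : l'.length + (n - i) < n := by omega
    refine Nat.find_min hex hlt ⟨l' ++ l.drop i, ?_, ?_, ?_⟩
    · intro s hs
      rcases List.mem_append.1 hs with h | h
      · exact hl' s h
      · exact hl s (List.mem_of_mem_drop h)
    · rw [List.length_append, List.length_drop, hlen]
    · rw [List.prod_append, hp, List.prod_take_mul_prod_drop, hprod]
  have key : ∀ i j : Fin (n / 3 + 1), ∀ s s' : S,
      (l.take (3 * i)).prod * (s : G) = (l.take (3 * j)).prod * (s' : G) → ¬ (i < j) := by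
    intro i j s s' h hij
    have hj : 3 * (j : ℕ) ≤ n := by
      have := j.2
      omega
    have hij' : (i : ℕ) < j := hij
    have h3 := hmin (3 * j) hj (l.take (3 * i) ++ [(s : G), (s' : G)⁻¹]) (by
      intro t ht
      rcases List.mem_append.1 ht with h | h
      · exact hl t (List.mem_of_mem_take h)
      · rcases List.mem_cons.1 h with h | h
        · rw [h]
          exact s.2
        · rw [List.mem_singleton] at h
          rw [h]
          exact hinv _ s'.2) (by
      rw [List.prod_append, List.prod_cons, List.prod_singleton, ← mul_assoc, h]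
      exact mul_inv_cancel_right _ _)
    rw [List.length_append, List.length_take] at h3
    simp only [List.length_cons, List.length_nil] at h3
    omega
  have hinj : Function.Injective
      (fun p : Fin (n / 3 + 1) × S => (l.take (3 * p.1)).prod * (p.2 : G)) := by
    rintro ⟨i, s⟩ ⟨j, s'⟩ h
    have h : (l.take (3 * i)).prod * (s : G) = (l.take (3 * j)).prod * (s' : G) := h
    have hij : i = j := le_antisymm (not_lt.1 (key j i s' s h.symm)) (not_lt.1 (key i j s s' h))
    subst hij
    have hs : (s : G) = s' := mul_left_cancel h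
    rw [Subtype.ext hs]
  have hcard := Nat.card_le_card_of_injective _ hinj
  rw [Nat.card_prod, Nat.card_eq_fintype_card, Fintype.card_fin] at hcard
  have hS : Nat.card S = S.ncard := rfl
  have hSpos : 0 < S.ncard := (Set.ncard_pos (Set.toFinite _)).2 ⟨1, h1⟩
  rw [hS] at hcard
  have hSr : (0 : ℝ) < S.ncard := by exact_mod_cast hSpos
  have h4 : (((n / 3 + 1 : ℕ) : ℝ)) * S.ncard ≤ k * S.ncard :=
    le_trans (by exact_mod_cast hcard) hk
  have h5 : ((n / 3 + 1 : ℕ) : ℝ) ≤ k := le_of_mul_le_mul_right h4 hSr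
  refine ⟨l, hl, ?_, hprod⟩
  have h6 : (l.length : ℝ) ≤ ((3 * (n / 3 + 1) : ℕ) : ℝ) := by
    have : l.length ≤ 3 * (n / 3 + 1) := by
      rw [hlen]
      omega
    exact_mod_cast this
  calc (l.length : ℝ) ≤ ((3 * (n / 3 + 1) : ℕ) : ℝ) := h6
    _ = 3 * ((n / 3 + 1 : ℕ) : ℝ) := by push_cast; ring
    _ ≤ 3 * k := by linarith

end Pool.Agent.N71.DM
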